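import Pool.Agent.H341.MA.Main
import Pool.Agent.H341.FM.Dir
import Pool.Agent.H341.FM.Sh
import Pool.Agent.H341.FM.Tr
import Pool.Agent.H341.FM.Mt
import Pool.Agent.H341.FM.Gh
import Pool.Agent.H341.FM.Finc
import Pool.Agent.H341.FM.OInd
import Pool.Agent.H341.FM.OHull
import Pool.Agent.H341.FM.PAsm
import Pool.Agent.H341.FM.Prl
import Pool.Agent.H341.FM.PCell
import Pool.Agent.H341.FM.PEv
import Pool.Agent.H341.FM.PSub
import Pool.Agent.H341.FM.PE
import Pool.Agent.H341.FM.PComb
import Pool.Agent.H341.FM.PStep
import Pool.Agent.H341.FM.PSolv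
import Pool.Agent.H341.FM.Bdd

/-!
# Solvable groups with bounded orbits stabilise a monolith

The definitions (`Mediangle`, `EvenConvexCycle`, `Itv`) are in `Pool/Agent/H341/MA/Defs.lean`,
`Gated` is in `Pool/Agent/H341/MA/St1.lean`, and `ElemPar`, `SameHyp`, `Transverse`, `Monolith` are in
`Pool/Agent/H341/FM/Defs.lean`.

Part 1 (bounded orbits give finite orbits, any group; file `Bdd.lean`). Suppose that every edge lies
in only finitely many triangles. For an infinite bounded set `O` of vertices and a free ultrafilter on
`O` let `f y` be the limit of `d(u,y)`, `u ∈ O`, and let `v` be a vertex with minimal `f v`. Then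
`f y = f v + d(v,y)` for all `y`: otherwise a first bad `y` gives an even convex cycle which does not
depend on `u`, or a common neighbour which does not depend on `u`. The set of these limit vertices `v`
is invariant if `O` is, and it is nearer to any given vertex than `O`.

Part 2 (finite orbits). Let `Y` be a finite convex subset of the mediangle graph which is invariant
under the group (it induces a mediangle graph), and let `N` be a group of automorphisms of `Y` which
stabilises a cell (an antipodal gated subgraph). Take a minimal `N`-invariant gated set `o` in this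
cell. For an `N`-invariant gated set `v` parallel to `o` let `E v` be the gated hull of `v` and of its
neighbours which are closer to `o`; it is an `N`-invariant cell. For each `N`-invariant gated set `R`
the projection of `o` to `R` is the only `v ⊆ R` with `R ∩ E v = v`. Therefore the integers `w R`
(`R` an `N`-invariant gated set) with `∑_{R' ⊆ R} w R' = 1` for all `R` vanish unless `R` is contained
in an `N`-invariant cell. If `K` normalises `N` and `K / N` is a `p`-group, it acts on these sets and
keeps `w`, and as the sum of all `w R` is one, counting orbits mod `p` gives a `K`-invariant cell.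
Solvable groups follow by induction.
-/

set_option autoImplicit false

namespace Pool.Agent.Results.MP_7af17a_al.SolvableBoundedOrbits

open Pool.Agent.H341.MA Pool.Agent.H341.FM Pool.Agent.H341.FM.O Pool.Agent.H341.FM.P

universe u v

/-- every edge lies in only finitely many triangles -/
def FinitelyManyTriangles {V : Type u} (X : SimpleGraph V) : Prop :=
  ∀ x y : V, X.Adj x y → {z | X.Adj z x ∧ X.Adj z y}.Finite

/-- some vertex orbit has finite diameter -/
def BoundedOrbit {V : Type u} (X : SimpleGraph V) (G : Type v) [Group G] [MulAction G V] : Prop :=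
  ∃ (x : V) (r : ℕ), ∀ g h : G, X.dist (g • x) (h • x) ≤ r

theorem of_finite_orbit (V : Type u) (X : SimpleGraph V) (G : Type v) [Group G] [MulAction G V]
    (hX : Mediangle X) (hG : ∀ (g : G) (x y : V), X.Adj x y → X.Adj (g • x) (g • y))
    (hsol : ∀ (N : Subgroup G) [N.Normal], Finite (G ⧸ N) → Group.IsSolvable (G ⧸ N))
    (horb : ∃ x : V, (MulAction.orbit G x).Finite) :
    ∃ M : Set V, Monolith X M ∧ ∀ g : G, (g • ·) '' M = M := by
  have e1 : S_E1.{u} := s_e1
  have e2 : S_E2.{u} := s_e2
  have e3 : S_E3.{u} := s_e3
  have e4 : S_E4.{u} := s_e4 e3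
  have gate : S_GATE.{u} := s_gate e1 e3
  have gp : S_GP.{u} := s_gp e1 e2
  have clq : S_CLQ.{u} := s_clq
  have sq : S_SQ.{u} := s_sq e1 e2 e3
  have thick : S_THICK.{u} := s_thick e1 e2 e3 e4 clq
  have wsq : S_WSQ.{u} := s_wsq e1 e2 e3 e4 sq thick
  have w : S_W.{u} := s_w e1 e2 e3 e4 gate thick wsq
  have pp : S_PP.{u} := s_pp e1 e2 e3 clq thick wsq w
  have par : S_PAR.{u} := s_par e1 e2 e3 clq w pp
  have ham : S_HAM.{u} := s_ham clq par
  have box : S_BOX.{u} := s_box
  have tn : T_N.{u} := t_n t_meet t_y (t_lift t_g)
  have tmain : T_MAIN.{u} := t_main t_meet tn (t_pi t_meet)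
  have move : S_MOVE.{u} := s_move e1 e2 e3 box thick
  have opp : S_OPP.{u} := s_opp box move
  have subc : S_SUBC.{u} := s_subc e1 e2 e3 e4 gate box opp
  have star : S_STAR.{u} := s_star e3 gp
  have dir : S_DIR.{u} := s_dir e1 box
  have sh : S_SH.{u} := s_sh e1 e2 e3 w box
  have tr : S_TR.{u} := s_tr dir sh box
  have mt : S_MT.{u} := s_mt e2 box t_meet tmain
  have ghg : S_GHG.{u} := s_ghg gate gp
  have sg : S_SG.{u} := s_sg box gp star subc
  have finc : S_FINC.{u, v} := s_finc box
  have ind : O_IND.{u} := o_ind e1 e2 e3
  have hull : O_HULL.{u} := o_hull ind gp ghg star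
  have prl : P_PRL.{u} := p_prl
  have im : P_IM.{u} := p_im
  have cell : P_CELL.{u} := p_cell prl gp
  have ev : P_EV.{u} := p_ev prl gp ghg star e1 e3 ham box
  have sub : P_SUB.{u} := p_sub mt sg subc box
  have pe : P_E.{u} := p_e prl ev sub ham box gp ghg
  have step : P_STEP.{u} := p_step p_comb pe im cell gp
  have solv : P_SOLV.{u} := p_solv step
  exact p_main box ham ghg mt sg sh tr finc ind hull solv V X G hX hG hsol horb

/-- Let a group `G` act by automorphisms on a mediangle graph `X`.
1. If every edge of `X` lies in only finitely many triangles (e.g. `X` bipartite or locally finite)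
and some orbit is bounded, then some orbit is finite.
2. If all finite quotients of `G` are solvable (e.g. `G` is solvable), and if some orbit is finite or
the assumptions of 1. hold, then `G` stabilises a monolith. -/
theorem result (V : Type u) (X : SimpleGraph V) (G : Type v) [Group G] [MulAction G V]
    (hX : Mediangle X) (hG : ∀ (g : G) (x y : V), X.Adj x y → X.Adj (g • x) (g • y)) :
    (FinitelyManyTriangles X → BoundedOrbit X G → ∃ x : V, (MulAction.orbit G x).Finite) ∧
    ((∀ (N : Subgroup G) [N.Normal], Finite (G ⧸ N) → Group.IsSolvable (G ⧸ N)) →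
      ((∃ x : V, (MulAction.orbit G x).Finite) ∨ (FinitelyManyTriangles X ∧ BoundedOrbit X G)) →
      ∃ M : Set V, Monolith X M ∧ ∀ g : G, (g • ·) '' M = M) := by
  have h1 : FinitelyManyTriangles X → BoundedOrbit X G → ∃ x : V, (MulAction.orbit G x).Finite := by
    rintro hfin ⟨x, r, hr⟩
    refine finite_orbit X hX hfin hG ⟨x, r, fun g => ?_⟩
    have := hr 1 g
    rwa [one_smul] at this
  refine ⟨h1, fun hsol h => ?_⟩
  rcases h with h | ⟨h2, h3⟩
  · exact of_finite_orbit V X G hX hG hsol h
  · exact of_finite_orbit V X G hX hG hsol (h1 h2 h3)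

end Pool.Agent.Results.MP_7af17a_al.SolvableBoundedOrbits
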